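import Pool.Agent.Helper70.KN.Goals4

/-!
# Project KN (MP_20ee5e_ag), part 4, packet NU1: the numerical condition for weights at most 2/5 and sums at most 1
-/

namespace Pool.Agent.Helper7.KN.NU1

open Pool.Agent.Helper70.KN

theorem kp_poly (hK : S_KP) (N : ℕ) (hN : 2 ≤ N) (σ : ℝ) (h0 : 0 ≤ σ) (h2 : σ ≤ 2) :
    kp N σ = 1 / 2 * ∑ l ∈ Finset.range N, (1 - σ / 2) ^ l := by
  obtain ⟨k0, k1, k2⟩ := hK N hN
  rcases h0.eq_or_lt with h | h
  · rw [← h, k0]
    simp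
    ring
  · rw [k1 σ h h2]
    have h3 := geom_sum_eq (x := 1 - σ / 2) (by intro h'; linarith) N
    rw [h3]
    have h4 : 1 - σ / 2 - 1 = -(σ / 2) := by ring
    rw [h4]
    field_simp
    ring

theorem five (hK : S_KP) : Num 5 (2 / 5) 1 := by
  refine ⟨1487 / 1000, 5 / 9, by norm_num, ?_, by norm_num, by norm_num⟩
  intro σ h0
  rcases le_total σ 2 with h2 | h2
  · rw [kp_poly hK 5 (by norm_num) σ h0 h2]
    obtain ⟨x, hx⟩ : ∃ x, x = 1 - σ / 2 := ⟨_, rfl⟩
    have hx0 : 0 ≤ x := by rw [hx]; linarith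
    have hx1 : x ≤ 1 := by rw [hx]; linarith
    have hσ : σ = 2 * (1 - x) := by rw [hx]; ring
    rw [← hx, hσ]
    simp only [Finset.sum_range_succ, Finset.sum_range_zero]
    nlinarith [sq_nonneg (x - 695 / 2000), mul_nonneg hx0 (sq_nonneg (x - 695 / 2000)),
      mul_nonneg (mul_nonneg hx0 hx0) (sq_nonneg (x - 695 / 2000))]
  · obtain ⟨k0, k1, k2⟩ := hK 5 (by norm_num)
    rw [k2 σ h2]
    have h3 : 0 < σ := by linarith
    rw [le_div_iff₀ h3]
    nlinarith [sq_nonneg (σ - 13 / 10)]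

theorem six (hK : S_KP) : Num 6 (2 / 5) 1 := by
  refine ⟨14135 / 10000, 1 / 2, by norm_num, ?_, by norm_num, by norm_num⟩
  intro σ h0
  rcases le_total σ 2 with h2 | h2
  · rw [kp_poly hK 6 (by norm_num) σ h0 h2]
    obtain ⟨x, hx⟩ : ∃ x, x = 1 - σ / 2 := ⟨_, rfl⟩
    have hx0 : 0 ≤ x := by rw [hx]; linarith
    have hx1 : x ≤ 1 := by rw [hx]; linarith
    have hσ : σ = 2 * (1 - x) := by rw [hx]; ring
    rw [← hx, hσ]
    simp only [Finset.sum_range_succ, Finset.sum_range_zero]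
    nlinarith [sq_nonneg (x - 59 / 200), mul_nonneg hx0 (sq_nonneg (x - 59 / 200)),
      mul_nonneg (mul_nonneg hx0 hx0) (sq_nonneg (x - 59 / 200)),
      mul_nonneg (mul_nonneg (mul_nonneg hx0 hx0) hx0) (sq_nonneg (x - 59 / 200))]
  · obtain ⟨k0, k1, k2⟩ := hK 6 (by norm_num)
    rw [k2 σ h2]
    have h3 : 0 < σ := by linarith
    rw [le_div_iff₀ h3]
    nlinarith [sq_nonneg (σ - 14 / 10)]

/-- For `σ ≥ θ` the function is at least `b / σ`, `b ≤ 1 - (1 - θ/2)^7`. -/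
theorem low (hK : S_KP) (N : ℕ) (hN : 7 ≤ N) (σ θ b : ℝ) (hθ : 0 < θ) (hθ2 : θ ≤ 2) (h : θ ≤ σ)
    (hb : b ≤ 1 - (1 - θ / 2) ^ 7) : b / σ ≤ kp N σ := by
  have h3 : 0 < σ := by linarith
  obtain ⟨k0, k1, k2⟩ := hK N (by omega)
  rcases le_total σ 2 with h2 | h2
  · rw [k1 σ h3 h2]
    apply div_le_div_of_nonneg_right _ h3.le
    have h4 : (1 - σ / 2) ^ N ≤ (1 - σ / 2) ^ 7 :=
      pow_le_pow_of_le_one (by linarith) (by linarith) hN
    have h5 : (1 - σ / 2) ^ 7 ≤ (1 - θ / 2) ^ 7 := pow_le_pow_left₀ (by linarith) (by linarith) 7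
    linarith
  · rw [k2 σ h2]
    apply div_le_div_of_nonneg_right _ h3.le
    have : 0 ≤ (1 - θ / 2) ^ 7 := by
      apply pow_nonneg; linarith
    linarith

theorem seven (hK : S_KP) (N : ℕ) (hN : 7 ≤ N) : Num N (2 / 5) 1 := by
  obtain ⟨n, hn⟩ : ∃ n : ℝ, n = (N : ℝ) := ⟨_, rfl⟩
  have hn7 : 7 ≤ n := by rw [hn]; exact_mod_cast hN
  have hn0 : 0 < n := by linarith
  obtain ⟨c, hc⟩ : ∃ c : ℝ, c = (2 * n ^ 2 - 2 * n - 1) / (2 * n ^ 2) := ⟨_, rfl⟩
  have hc1 : 83 / 98 ≤ c := by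
    rw [hc, div_le_div_iff₀ (by norm_num) (by positivity)]
    nlinarith
  have hc2 : c ≤ 1 := by
    rw [hc, div_le_one (by positivity)]
    nlinarith
  obtain ⟨s, hs⟩ : ∃ s : ℝ, s = 1731 / 1000 * c := ⟨_, rfl⟩
  have hs1 : 1466 / 1000 ≤ s := by rw [hs]; linarith
  have hs2 : s ≤ 1731 / 1000 := by rw [hs]; linarith
  have hs0 : 0 < s := by linarith
  refine ⟨2 * (998 / 1000) / s, 998 / 1000 / s ^ 2, by positivity, ?_, ?_, ?_⟩
  · intro σ h0
    have key : ∀ b : ℝ, 0 < σ → 998 / 1000 * (2 * (σ / s) - (σ / s) ^ 2) ≤ b →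
        2 * (998 / 1000) / s - 998 / 1000 / s ^ 2 * σ ≤ b / σ := by
      intro b hσ hb
      rw [le_div_iff₀ hσ]
      refine le_trans (le_of_eq ?_) hb
      field_simp
    rcases le_total (6 / 5) σ with h1 | h1
    · have h3 : 0 < σ := by linarith
      refine le_trans (key (998 / 1000) h3 ?_) (low hK N hN σ (6 / 5) _ (by norm_num) (by norm_num) h1 (by norm_num))
      nlinarith [sq_nonneg (σ / s - 1)]
    rcases le_total 1 σ with h2 | h2
    · have h3 : 0 < σ := by linarith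
      refine le_trans (key (992 / 1000) h3 ?_) (low hK N hN σ 1 _ (by norm_num) (by norm_num) h2 (by norm_num))
      have h4 : σ / s ≤ 82 / 100 := by
        rw [div_le_iff₀ hs0]; linarith
      nlinarith
    rcases le_total (6 / 10) σ with h4 | h4
    · have h3 : 0 < σ := by linarith
      refine le_trans (key (917 / 1000) h3 ?_) (low hK N hN σ (6 / 10) _ (by norm_num) (by norm_num) h4 (by norm_num))
      have h4 : σ / s ≤ 6822 / 10000 := by
        rw [div_le_iff₀ hs0]; linarith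
      nlinarith
    · have h5 : 2 * (998 / 1000) / s ≤ 137 / 100 := by
        rw [div_le_iff₀ hs0]; linarith
      have h6 : 0 ≤ 998 / 1000 / s ^ 2 * σ := by positivity
      have h7 : (137 / 100 : ℝ) ≤ kp N σ := by
        rw [kp_poly hK N (by omega) σ h0 (by linarith)]
        have h8 : ∑ l ∈ Finset.range 7, (7 / 10 : ℝ) ^ l ≤ ∑ l ∈ Finset.range N, (1 - σ / 2) ^ l := by
          calc ∑ l ∈ Finset.range 7, (7 / 10 : ℝ) ^ l ≤ ∑ l ∈ Finset.range 7, (1 - σ / 2) ^ l :=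
                Finset.sum_le_sum fun l _ => pow_le_pow_left₀ (by norm_num) (by linarith) l
            _ ≤ _ := Finset.sum_le_sum_of_subset_of_nonneg
                (Finset.range_mono hN) (fun l _ _ => pow_nonneg (by linarith) l)
        have h9 : (2742 / 1000 : ℝ) ≤ ∑ l ∈ Finset.range 7, (7 / 10 : ℝ) ^ l := by
          norm_num [Finset.sum_range_succ]
        linarith
      linarith
  · rw [← hn]
    have h1 : 998 / 1000 / s ^ 2 ≤ n / (3 * (n - 2)) := by
      rw [div_le_div_iff₀ (by positivity) (by linarith)]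
      rw [hs, hc]
      have h2 : n * (1731 / 1000 * ((2 * n ^ 2 - 2 * n - 1) / (2 * n ^ 2))) ^ 2 =
          (1731 / 2000) ^ 2 * (2 * n ^ 2 - 2 * n - 1) ^ 2 / n ^ 3 := by
        field_simp
        ring
      rw [h2, le_div_iff₀ (by positivity)]
      obtain ⟨m, hm⟩ : ∃ m, m = n - 7 := ⟨_, rfl⟩
      have hm0 : 0 ≤ m := by linarith
      have hnm : n = m + 7 := by linarith
      rw [hnm]
      have : 0 ≤ (1731 / 2000) ^ 2 * (2 * (m + 7) ^ 2 - 2 * (m + 7) - 1) ^ 2 -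
          998 / 1000 * (3 * (m + 7 - 2)) * (m + 7) ^ 3 := by
        ring_nf
        positivity
      linarith
    calc 2 * (998 / 1000 / s ^ 2) * (n - 2) / n ≤ 2 * (n / (3 * (n - 2))) * (n - 2) / n := by
          apply div_le_div_of_nonneg_right _ hn0.le
          apply mul_le_mul_of_nonneg_right _ (by linarith)
          linarith
      _ = 1 - 1 / 3 := by
          have : n - 2 ≠ 0 := by linarith
          field_simp
          norm_num
  · rw [← hn]
    have h1 : (n - 1) / n * (2 * (998 / 1000) / s - 998 / 1000 / s ^ 2 * (2 / 5)) =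
        (n - 1) * (998 / 1000) * (2 * s - 2 / 5) / (n * s ^ 2) := by
      field_simp
    rw [h1, lt_div_iff₀ (by positivity), one_mul, hs, hc]
    have h2 : n * (1731 / 1000 * ((2 * n ^ 2 - 2 * n - 1) / (2 * n ^ 2))) ^ 2 =
          (1731 / 2000) ^ 2 * (2 * n ^ 2 - 2 * n - 1) ^ 2 / n ^ 3 := by
      field_simp
      ring
    have h3 : (n - 1) * (998 / 1000) * (2 * (1731 / 1000 * ((2 * n ^ 2 - 2 * n - 1) / (2 * n ^ 2))) - 2 / 5) =
        (n - 1) * (998 / 1000) * (1731 / 1000 * (2 * n ^ 2 - 2 * n - 1) * n - 2 / 5 * n ^ 3) / n ^ 3 := by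
      field_simp
    rw [h2, h3]
    apply div_lt_div_of_pos_right _ (by positivity)
    obtain ⟨m, hm⟩ : ∃ m, m = n - 7 := ⟨_, rfl⟩
    have hm0 : 0 ≤ m := by linarith
    have hnm : n = m + 7 := by linarith
    rw [hnm]
    have : 0 < (m + 7 - 1) * (998 / 1000) * (1731 / 1000 * (2 * (m + 7) ^ 2 - 2 * (m + 7) - 1) * (m + 7) -
        2 / 5 * (m + 7) ^ 3) - (1731 / 2000) ^ 2 * (2 * (m + 7) ^ 2 - 2 * (m + 7) - 1) ^ 2 := by
      ring_nf
      positivity
    linarith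

theorem t (hK : S_KP) : S_NU1 := by
  intro N hN
  rcases Nat.lt_or_ge N 7 with h | h
  · have h' : N = 5 ∨ N = 6 := by omega
    rcases h' with h' | h'
    · rw [h']; exact five hK
    · rw [h']; exact six hK
  · exact seven hK N h

end Pool.Agent.Helper7.KN.NU1
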