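import Pool.Agent.Helper70.KN.Goals

/-! Packet PW of project KN (MP_20ee5e_ag) -/

open Finset

namespace Pool.Agent.Helper7.KN.PW

open Pool.Agent.Helper70.KN

theorem t : S_PW := by
  intro N hN b _
  classical
  set s : Finset (Fin N) := univ.filter b with hs
  set k : ℕ := s.card with hk
  have hmem : ∀ i, i ∈ s ↔ b i := fun i => by rw [hs]; simp
  have h1 : ∑ i, (if b i then (1 : ℝ) else 0) = k := by
    rw [hk, hs, Finset.card_eq_sum_ones, Finset.sum_filter]
    push_cast
    rfl
  have h2 : ∑ J ∈ (univ : Finset (Fin N)).powersetCard 2, (if ∀ j ∈ J, b j then (1 : ℝ) else 0) =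
      (k : ℝ) * ((k : ℝ) - 1) / 2 := by
    rw [← Finset.sum_filter]
    have h3 : ((univ : Finset (Fin N)).powersetCard 2).filter (fun J => ∀ j ∈ J, b j) =
        s.powersetCard 2 := by
      ext J
      rw [Finset.mem_filter, Finset.mem_powersetCard, Finset.mem_powersetCard]
      constructor
      · rintro ⟨⟨-, h4⟩, h5⟩
        exact ⟨fun j hj => (hmem j).mpr (h5 j hj), h4⟩
      · rintro ⟨h4, h5⟩
        exact ⟨⟨Finset.subset_univ _, h5⟩, fun j hj => (hmem j).mp (h4 hj)⟩
    rw [h3, Finset.sum_const, Finset.card_powersetCard, nsmul_eq_mul, mul_one, ← hk,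
      Nat.cast_choose_two]
  rw [h1, h2]
  have hNR : (3 : ℝ) ≤ N := by exact_mod_cast hN
  rcases Nat.lt_or_ge k 2 with hk2 | hk2
  · rcases Nat.lt_or_ge k 1 with hk1 | hk1
    · have hk0 : k = 0 := by omega
      rw [hk0]
      have h3 : ∑ i : Fin N, (if ∀ j, j ≠ i → ¬ b j then (1 : ℝ) else 0) ≤ ∑ _i : Fin N, (1 : ℝ) :=
        Finset.sum_le_sum fun i _ => by split_ifs <;> norm_num
      rw [Finset.sum_const, Finset.card_univ, Fintype.card_fin, nsmul_eq_mul, mul_one] at h3
      refine h3.trans (le_of_eq ?_)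
      push_cast
      ring
    · have hk0 : k = 1 := by omega
      obtain ⟨a, ha⟩ := Finset.card_eq_one.mp (hk.symm.trans hk0)
      have hba : b a := (hmem a).mp (by rw [ha]; exact Finset.mem_singleton_self a)
      rw [hk0]
      have h3 : ∑ i : Fin N, (if ∀ j, j ≠ i → ¬ b j then (1 : ℝ) else 0) ≤
          ∑ i : Fin N, (if i = a then (1 : ℝ) else 0) := by
        refine Finset.sum_le_sum fun i _ => ?_
        by_cases hi : i = a
        · rw [if_pos hi]
          split_ifs <;> norm_num
        · rw [if_neg hi, if_neg]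
          intro h
          exact h a (Ne.symm hi) hba
      rw [Finset.sum_ite_eq' univ a, if_pos (Finset.mem_univ _)] at h3
      refine h3.trans (le_of_eq ?_)
      push_cast
      ring
  · have h3 : ∑ i : Fin N, (if ∀ j, j ≠ i → ¬ b j then (1 : ℝ) else 0) = 0 := by
      refine Finset.sum_eq_zero fun i _ => ?_
      rw [if_neg]
      intro h
      have h4 : s ⊆ {i} := by
        intro j hj
        rw [Finset.mem_singleton]
        by_contra hji
        exact h j hji ((hmem j).mp hj)
      have h5 := Finset.card_le_card h4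
      rw [Finset.card_singleton, ← hk] at h5
      omega
    rw [h3]
    obtain ⟨u, hu⟩ := Nat.exists_eq_add_of_le hk2
    have hu0 : (0 : ℝ) ≤ u := Nat.cast_nonneg u
    have huu : (0 : ℝ) ≤ (u : ℝ) * ((u : ℝ) - 1) := by
      rcases Nat.eq_zero_or_pos u with h | h
      · rw [h]; norm_num
      · have h6 : (1 : ℝ) ≤ u := by exact_mod_cast h
        exact mul_nonneg hu0 (by linarith)
    have h7 : (0 : ℝ) ≤ ((N : ℝ) - 3) * ((u : ℝ) * ((u : ℝ) + 1)) :=
      mul_nonneg (by linarith) (mul_nonneg hu0 (by linarith))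
    rw [hu]
    push_cast
    nlinarith [h7, huu]

end Pool.Agent.Helper7.KN.PW
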