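import Pool.Agent.Helper70.KN.Goals2

/-!
# Packet WD of project KN (MP_20ee5e_ag)
-/

open MeasureTheory Set Pool.Agent.Helper70.KN

namespace Pool.Agent.Helper7.KN.WD

theorem t : S_WD := by
  intro N V ω θ hF
  obtain ⟨hC, h0, hω, hθ, L, hL, hN⟩ := hF
  refine ⟨hC, by positivity, h0, ?_⟩
  intro x i hx hxi hxc
  rw [hN] at hx ⊢
  obtain ⟨hx0, hxL⟩ := hx
  have hlam : 0 < 1 - x i / (1 / ω) := by
    have : x i / (1 / ω) < 1 := by
      rw [div_lt_one (by positivity)]; exact hxc
    linarith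
  refine ⟨?_, ?_⟩
  · intro k
    show (0 : ℝ) ≤ if k = i then (0 : ℝ) else x k / (1 - x i / (1 / ω))
    split_ifs with hk
    · exact le_refl _
    · exact div_nonneg (hx0 k) hlam.le
  · intro w hw
    have h1 := hxL w hw
    obtain ⟨hwj, _⟩ := hL w hw
    have e1 : ∑ j, w j * x j = w i * x i + ∑ j ∈ Finset.univ.erase i, w j * x j := by
      rw [← Finset.add_sum_erase _ _ (Finset.mem_univ i)]
    have e2 : ∑ j, w j * (if j = i then (0 : ℝ) else x j / (1 - x i / (1 / ω))) =
        (∑ j ∈ Finset.univ.erase i, w j * x j) / (1 - x i / (1 / ω)) := by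
      rw [← Finset.add_sum_erase _ _ (Finset.mem_univ i), Finset.sum_div]
      simp only [if_true, mul_zero, zero_add]
      refine Finset.sum_congr rfl fun j hj => ?_
      rw [if_neg (Finset.ne_of_mem_erase hj), mul_div_assoc]
    show 1 ≤ ∑ j, w j * (if j = i then (0 : ℝ) else x j / (1 - x i / (1 / ω)))
    rw [e2, le_div_iff₀ hlam]
    have h2 : w i * x i ≤ x i / (1 / ω) := by
      rw [div_div_eq_mul_div, div_one, mul_comm]
      exact mul_le_mul_of_nonneg_left (hwj i).2 hxi
    linarith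

end Pool.Agent.Helper7.KN.WD
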